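import Pool.Agent.KS6_83.E5.Final

/-!
# Sums of two fifth powers: `x⁵ + y⁵ = N z⁵` for an infinite family of `N` (MP_e25fb9_nt)

Let `N` be an integer which is not divisible by the fifth power of a prime, such that

* `25 ∣ N` only if `125 ∣ N`,
* `5 ∣ N`, or `N` is congruent to `±3, ±4, ±9` or `±12` modulo `25`,
* `N` has at most one prime factor `q ≡ 1 (mod 5)`, and this `q` (if it exists) is *admissible*:
  it is the norm of some `a + b ζ + c ζ² + d ζ³`, `ζ = ζ₅`, for which a certain cubic form in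
  `a, b, c, d` is not divisible by `5` (this implies that no root of unity times the element is
  congruent to its complex conjugate modulo `5`).

Then `x⁵ + y⁵ = N z⁵` has only the solutions `(t, -t, 0)`, and so has every equation
`a x⁵ + a y⁵ = b z⁵` with `b a⁴ = N m⁵`. The equation `4 x⁵ + 4 y⁵ + 11 z⁵ = 0` is the case
`N = 88`, `m = -2`. All primes `q ≡ 1 (mod 5)` below `420` except `211` and `281` are shown to be
admissible. The first two conditions cannot be dropped: `3⁵ + (-1)⁵ = 2 * 11²` and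
`2⁵ + 3⁵ = 5² * 11`.

The proof generalises the library proof for `4 x⁵ + 4 y⁵ + 11 z⁵ = 0` (arithmetic of `ℤ[ζ₅]`
and Dirichlet's descent in `ℤ[(1 + √5) / 2]`): the prime `11` and its factor `2 + ζ` are replaced
by any admissible `q`, the coefficient is arbitrary, and solutions with `x + y` odd are treated by
a second descent with half-integral elements.
-/

set_option autoImplicit false

namespace Pool.Agent.Results.MP_e25fb9_nt.SumOfTwoFifthPowers

/-- The norm of `a + b ζ + c ζ² + d ζ³` from `ℚ(ζ)` to `ℚ`, `ζ` a primitive fifth root of unity. -/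
def norm5 (a b c d : ℤ) : ℤ :=
  (a ^ 2 + b ^ 2 + c ^ 2 + d ^ 2 - (a * c + b * d + d * a)) ^ 2 -
    (a ^ 2 + b ^ 2 + c ^ 2 + d ^ 2 - (a * c + b * d + d * a)) *
      (a * b + b * c + c * d - (a * c + b * d + d * a)) -
    (a * b + b * c + c * d - (a * c + b * d + d * a)) ^ 2

/-- The cubic form `S₃ S₀² - 3 S₀ S₁ S₂ + 2 S₁³`, where `S_k = 0 ^ k a + 1 ^ k b + 2 ^ k c + 3 ^ k d`. -/
def cubic (a b c d : ℤ) : ℤ :=
  (b + 8 * c + 27 * d) * (a + b + c + d) ^ 2 -
    3 * (a + b + c + d) * (b + 2 * c + 3 * d) * (b + 4 * c + 9 * d) +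
    2 * (b + 2 * c + 3 * d) ^ 3

/-- `q` is the norm of an element on which the cubic form is not divisible by `5`. -/
def Admissible (q : ℤ) : Prop := ∃ a b c d : ℤ, q = norm5 a b c d ∧ ¬ 5 ∣ cubic a b c d

theorem result :
    -- the family
    (∀ N : ℤ,
      (∀ p : ℕ, p.Prime → ¬ ((p : ℤ) ^ 5 ∣ N)) →
      (25 ∣ N → 125 ∣ N) →
      (5 ∣ N ∨ N % 25 ∈ ({3, 4, 9, 12, 13, 16, 21, 22} : Set ℤ)) →
      (∀ p q : ℕ, p.Prime → q.Prime → (p : ℤ) ∣ N → (q : ℤ) ∣ N → p % 5 = 1 → q % 5 = 1 → p = q) →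
      (∀ q : ℕ, q.Prime → (q : ℤ) ∣ N → q % 5 = 1 → Admissible q) →
      ∀ a b m : ℤ, a ≠ 0 → m ≠ 0 → b * a ^ 4 = N * m ^ 5 →
        ∀ x y z : ℤ, a * x ^ 5 + a * y ^ 5 = b * z ^ 5 ↔ y = -x ∧ z = 0) ∧
    -- admissible primes
    (∀ q ∈ ({11, 31, 41, 61, 71, 101, 131, 151, 181, 191, 241, 251, 271, 311, 331, 401} : Set ℤ),
      Admissible q) ∧
    -- the equation of the problem
    (∀ x y z : ℤ, 4 * x ^ 5 + 4 * y ^ 5 + 11 * z ^ 5 = 0 ↔ y = -x ∧ z = 0) := by
  have hfam : ∀ N : ℤ,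
      (∀ p : ℕ, p.Prime → ¬ ((p : ℤ) ^ 5 ∣ N)) →
      (25 ∣ N → 125 ∣ N) →
      (5 ∣ N ∨ N % 25 ∈ ({3, 4, 9, 12, 13, 16, 21, 22} : Set ℤ)) →
      (∀ p q : ℕ, p.Prime → q.Prime → (p : ℤ) ∣ N → (q : ℤ) ∣ N → p % 5 = 1 → q % 5 = 1 → p = q) →
      (∀ q : ℕ, q.Prime → (q : ℤ) ∣ N → q % 5 = 1 → Admissible q) →
      ∀ a b m : ℤ, a ≠ 0 → m ≠ 0 → b * a ^ 4 = N * m ^ 5 →
        ∀ x y z : ℤ, a * x ^ 5 + a * y ^ 5 = b * z ^ 5 ↔ y = -x ∧ z = 0 := by
    intro N hfree h25 h5 huniq hadm a b m ha hm hab x y z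
    refine Pool.Agent.KS6_83.E5.main' hfree h25 (h5.imp_right fun h => ?_) huniq ?_ ha hm hab x y z
    · simpa [Pool.Agent.KS6_83.E5.Res] using h
    · intro q hq hqN hq5
      obtain ⟨a, b, c, d, h1, h2⟩ := hadm q hq hqN hq5
      exact ⟨by omega, a, b, c, d, h1, h2⟩
  have hadm : ∀ q ∈ ({11, 31, 41, 61, 71, 101, 131, 151, 181, 191, 241, 251, 271, 311, 331, 401} :
      Set ℤ), Admissible q := by
    intro q hq
    simp only [Set.mem_insert_iff, Set.mem_singleton_iff] at hq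
    rcases hq with rfl | rfl | rfl | rfl | rfl | rfl | rfl | rfl | rfl | rfl | rfl | rfl | rfl |
      rfl | rfl | rfl
    · exact ⟨-2, -1, 0, 0, by norm_num [norm5], by norm_num [cubic]⟩
    · exact ⟨-2, 0, 0, 1, by norm_num [norm5], by norm_num [cubic]⟩
    · exact ⟨-2, 0, -1, 1, by norm_num [norm5], by norm_num [cubic]⟩
    · exact ⟨-3, -1, 0, 0, by norm_num [norm5], by norm_num [cubic]⟩
    · exact ⟨-3, -1, 0, 1, by norm_num [norm5], by norm_num [cubic]⟩
    · exact ⟨-3, -1, 1, 0, by norm_num [norm5], by norm_num [cubic]⟩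
    · exact ⟨-3, 0, -1, 1, by norm_num [norm5], by norm_num [cubic]⟩
    · exact ⟨-3, 0, -2, 1, by norm_num [norm5], by norm_num [cubic]⟩
    · exact ⟨-3, 1, 0, 1, by norm_num [norm5], by norm_num [cubic]⟩
    · exact ⟨-3, 1, 1, -1, by norm_num [norm5], by norm_num [cubic]⟩
    · exact ⟨-4, -1, 0, 1, by norm_num [norm5], by norm_num [cubic]⟩
    · exact ⟨-4, -1, 1, 1, by norm_num [norm5], by norm_num [cubic]⟩
    · exact ⟨-3, 0, -1, 2, by norm_num [norm5], by norm_num [cubic]⟩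
    · exact ⟨-3, 1, -1, 2, by norm_num [norm5], by norm_num [cubic]⟩
    · exact ⟨-4, -1, 0, 2, by norm_num [norm5], by norm_num [cubic]⟩
    · exact ⟨-4, 1, -1, 1, by norm_num [norm5], by norm_num [cubic]⟩
  refine ⟨hfam, hadm, fun x y z => ?_⟩
  have hdiv : ∀ p : ℕ, p.Prime → (p : ℤ) ∣ 88 → p = 2 ∨ p = 11 := by
    intro p hp h
    have h1 : p ∣ 2 ^ 3 * 11 := by
      have : p ∣ 88 := by exact_mod_cast h
      simpa using this
    rcases hp.dvd_mul.1 h1 with h2 | h2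
    · exact Or.inl ((Nat.prime_dvd_prime_iff_eq hp Nat.prime_two).1 (hp.dvd_of_dvd_pow h2))
    · exact Or.inr ((Nat.prime_dvd_prime_iff_eq hp (by norm_num)).1 h2)
  have h := hfam 88 (fun p hp h => by
      rcases hdiv p hp ((dvd_pow_self _ (by norm_num)).trans h) with rfl | rfl
      · norm_num at h
      · norm_num at h) (fun h => by norm_num at h) (Or.inr (by norm_num))
    (fun p q hp hq h1 h2 h3 h4 => by
      rcases hdiv p hp h1 with rfl | rfl <;> rcases hdiv q hq h2 with rfl | rfl <;> omega)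
    (fun q hq h1 h2 => by
      rcases hdiv q hq h1 with rfl | rfl
      · omega
      · exact hadm _ (by norm_num)) 4 (-11) (-2) (by norm_num) (by norm_num) (by norm_num) x y z
  rw [← h]
  constructor
  · intro h1
    linear_combination h1
  · intro h1
    linear_combination h1

end Pool.Agent.Results.MP_e25fb9_nt.SumOfTwoFifthPowers
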